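import Pool.Agent.H43.Cyc.Defs

/-!
# Locally bipartite graphs of large chromatic number

The graph on the cube `{0,1}^n` in which two points are adjacent if they agree in at most `t`
places.  Its chromatic number is large by a two-function inequality (concentration of measure),
and small unions of balls are bipartite, since all centres are constant on some large set of
coordinates.
-/

open Finset

namespace Pool.Agent.H43.Cyc

theorem two_point {q D a0 a1 b0 b1 : ℝ} (hq : 0 < q) (hD : 0 ≤ D) (ha1 : 0 ≤ a1)
    (hb1 : 0 ≤ b1) (h00 : a0 * b0 ≤ D) (h11 : a1 * b1 ≤ D)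
    (h01 : a0 * b1 ≤ q * D) (h10 : a1 * b0 ≤ q * D) :
    (a0 + a1) * (b0 + b1) ≤ D * (q + 2 + 1 / q) := by
  have huv : (a0 * b1) * (a1 * b0) ≤ D * D := by
    have : (a0 * b1) * (a1 * b0) = (a0 * b0) * (a1 * b1) := by ring
    rw [this]
    exact mul_le_mul h00 h11 (mul_nonneg ha1 hb1) hD
  have h1 : 0 ≤ (q * D - a0 * b1) * (q * D - a1 * b0) :=
    mul_nonneg (by linarith) (by linarith)
  have h2 : q * D * (a0 * b1 + a1 * b0) ≤ D * D * (q * q + 1) := by nlinarith
  have h3 : a0 * b1 + a1 * b0 ≤ D * (q + 1 / q) := by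
    rcases eq_or_lt_of_le hD with h | h
    · rw [← h] at h01 h10 ⊢
      linarith
    · have h4 : q * D * (D * (q + 1 / q)) = D * D * (q * q + 1) := by
        field_simp
      rw [← h4] at h2
      exact le_of_mul_le_mul_left h2 (mul_pos hq h)
  nlinarith

/-- The number of places where `x` and `y` differ. -/
def ham {n : ℕ} (x y : Fin n → Bool) : ℕ := ∑ i, if x i ≠ y i then 1 else 0

/-- The number of places where `x` and `y` agree. -/
def agr {n : ℕ} (x y : Fin n → Bool) : ℕ := ∑ i, if x i = y i then 1 else 0

theorem sum_cube (n : ℕ) (F : (Fin (n + 1) → Bool) → ℝ) :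
    ∑ x, F x = ∑ x : Fin n → Bool, F (Fin.cons false x) + ∑ x : Fin n → Bool, F (Fin.cons true x) := by
  rw [← (Fin.consEquiv (fun _ : Fin (n + 1) => Bool)).sum_comp, Fintype.sum_prod_type]
  rw [Fintype.sum_bool, add_comm]
  rfl

theorem ham_cons {n : ℕ} (a b : Bool) (x y : Fin n → Bool) :
    ham (Fin.cons a x : Fin (n + 1) → Bool) (Fin.cons b y) = (if a ≠ b then 1 else 0) + ham x y := by
  unfold ham
  rw [Fin.sum_univ_succ]
  simp

theorem cube_ineq {q : ℝ} (hq : 1 ≤ q) (n : ℕ) : ∀ (D : ℝ), 0 ≤ D →
    ∀ (F G : (Fin n → Bool) → ℝ), (∀ x, 0 ≤ F x) → (∀ x, 0 ≤ G x) →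
    (∀ x y, F x * G y ≤ D * q ^ ham x y) →
    (∑ x, F x) * (∑ x, G x) ≤ D * (q + 2 + 1 / q) ^ n := by
  induction n with
  | zero =>
    intro D _ F G _ _ h
    have e : ∀ x y : Fin 0 → Bool, ham x y = 0 := by
      intro x y
      simp [ham]
    rw [Fintype.sum_unique, Fintype.sum_unique]
    refine (h _ _).trans ?_
    rw [e, pow_zero, pow_zero]
  | succ n ih =>
    intro D hD F G hF hG h
    rw [sum_cube, sum_cube]
    have hM : 0 ≤ q + 2 + 1 / q := by positivity
    have key := two_point (q := q) (D := D * (q + 2 + 1 / q) ^ n)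
      (a0 := ∑ x : Fin n → Bool, F (Fin.cons false x))
      (a1 := ∑ x : Fin n → Bool, F (Fin.cons true x))
      (b0 := ∑ x : Fin n → Bool, G (Fin.cons false x))
      (b1 := ∑ x : Fin n → Bool, G (Fin.cons true x))
      (by linarith) (by positivity)
      (Finset.sum_nonneg fun _ _ => hF _) (Finset.sum_nonneg fun _ _ => hG _)
      (ih D hD _ _ (fun _ => hF _) (fun _ => hG _) (by
        intro x y
        have := h (Fin.cons false x) (Fin.cons false y)
        rw [ham_cons] at this
        simpa using this))
      (ih D hD _ _ (fun _ => hF _) (fun _ => hG _) (by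
        intro x y
        have := h (Fin.cons true x) (Fin.cons true y)
        rw [ham_cons] at this
        simpa using this))
      (by
        have := ih (q * D) (by positivity) _ _ (fun x => hF (Fin.cons false x))
          (fun x => hG (Fin.cons true x)) (by
            intro x y
            have := h (Fin.cons false x) (Fin.cons true y)
            rw [ham_cons] at this
            simp only [ne_eq, Bool.false_eq_true, not_false_eq_true, if_true] at this
            rw [pow_add, pow_one] at this
            linarith)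
        linarith)
      (by
        have := ih (q * D) (by positivity) _ _ (fun x => hF (Fin.cons true x))
          (fun x => hG (Fin.cons false x)) (by
            intro x y
            have := h (Fin.cons true x) (Fin.cons false y)
            rw [ham_cons] at this
            simp only [ne_eq, Bool.true_eq_false, not_false_eq_true, if_true] at this
            rw [pow_add, pow_one] at this
            linarith)
        linarith)
    rw [pow_succ, ← mul_assoc]
    exact key

/-- The graph on the cube in which two points are adjacent if they agree in few places. -/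
def ZG (n t : ℕ) : SimpleGraph (Fin n → Bool) where
  Adj x y := x ≠ y ∧ agr x y ≤ t
  symm := by
    constructor
    intro x y h
    refine ⟨h.1.symm, ?_⟩
    have : agr y x = agr x y := by
      unfold agr
      refine Finset.sum_congr rfl fun i _ => ?_
      simp only [eq_comm]
    rw [this]
    exact h.2
  loopless := by
    constructor
    intro x h
    exact h.1 rfl

theorem ZG_count {n t k : ℕ} (ht : t < n) (hc : ColOn (ZG n t) Set.univ k) {q : ℝ} (hq : 1 ≤ q) :
    4 ^ n * q ^ (t + 1) ≤ (k : ℝ) ^ 2 * (q + 2 + 1 / q) ^ n := by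
  classical
  obtain ⟨c, hck, hcc⟩ := hc
  let A : ℕ → Finset (Fin n → Bool) := fun j => Finset.univ.filter (fun x => c x = j)
  have hA : ∀ j, ((A j).card : ℝ) ^ 2 * q ^ (t + 1) ≤ (q + 2 + 1 / q) ^ n := by
    intro j
    have := cube_ineq hq n 1 zero_le_one (fun x => if c x = j then 1 else 0)
      (fun x => if c (fun i => !(x i)) = j then q ^ (t + 1) else 0)
      (by intro x; positivity) (by intro x; positivity)
      (by
        intro x y
        by_cases h1 : c x = j
        · by_cases h2 : c (fun i => !(y i)) = j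
          · simp only [h1, h2, if_true, one_mul]
            refine pow_le_pow_right₀ hq ?_
            have e : ham x y = agr x (fun i => !(y i)) := by
              unfold ham agr
              refine Finset.sum_congr rfl fun i _ => ?_
              show (if x i ≠ y i then 1 else 0) = (if x i = !(y i) then 1 else 0)
              generalize x i = a
              generalize y i = b
              cases a <;> cases b <;> rfl
            rw [e]
            by_contra hlt
            push Not at hlt
            have hle : agr x (fun i => !(y i)) ≤ t := by omega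
            by_cases hxy : x = fun i => !(y i)
            · have : agr x (fun i => !(y i)) = n := by
                unfold agr
                rw [← hxy]; simp
              omega
            · exact hcc x (Set.mem_univ _) _ (Set.mem_univ _) ⟨hxy, hle⟩ (h1.trans h2.symm)
          · simp only [h2, if_false, mul_zero, one_mul]
            positivity
        · simp only [h1, if_false, zero_mul, one_mul]
          positivity)
    have e1 : ∑ x : Fin n → Bool, (if c x = j then (1 : ℝ) else 0) = ((A j).card : ℝ) := by
      simp [A]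
    have e2 : ∑ x : Fin n → Bool, (if c (fun i => !(x i)) = j then q ^ (t + 1) else 0) =
        ((A j).card : ℝ) * q ^ (t + 1) := by
      let e : (Fin n → Bool) ≃ (Fin n → Bool) :=
        ⟨fun x i => !(x i), fun x i => !(x i), fun x => by funext i; simp,
          fun x => by funext i; simp⟩
      have e3 : ∑ x : Fin n → Bool, (if c (fun i => !(x i)) = j then q ^ (t + 1) else 0) =
          ∑ x : Fin n → Bool, (if c x = j then q ^ (t + 1) else 0) :=
        Fintype.sum_equiv e _ _ (fun x => rfl)
      rw [e3, ← Finset.sum_filter, Finset.sum_const, nsmul_eq_mul]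
    rw [e1, e2, one_mul] at this
    calc ((A j).card : ℝ) ^ 2 * q ^ (t + 1) = ((A j).card : ℝ) * (((A j).card : ℝ) * q ^ (t + 1)) := by
          ring
      _ ≤ _ := this
  -- some class is large
  have hsum : (2 : ℝ) ^ n = ∑ j ∈ Finset.range k, ((A j).card : ℝ) := by
    have h1 : (Finset.univ : Finset (Fin n → Bool)).card = ∑ j ∈ Finset.range k, (A j).card :=
      Finset.card_eq_sum_card_fiberwise
        (fun x _ => Finset.mem_coe.mpr (Finset.mem_range.mpr (hck x (Set.mem_univ _))))
    rw [Finset.card_univ] at h1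
    simp only [Fintype.card_pi, Fintype.card_bool, Finset.prod_const, Finset.card_univ,
      Fintype.card_fin] at h1
    exact_mod_cast h1
  have hcs : ((2 : ℝ) ^ n) ^ 2 ≤ k * ∑ j ∈ Finset.range k, ((A j).card : ℝ) ^ 2 := by
    rw [hsum]
    have := sq_sum_le_card_mul_sum_sq (s := Finset.range k) (f := fun j => ((A j).card : ℝ))
    simpa using this
  have hq0 : (0 : ℝ) ≤ q ^ (t + 1) := by positivity
  calc (4 : ℝ) ^ n * q ^ (t + 1) = ((2 : ℝ) ^ n) ^ 2 * q ^ (t + 1) := by
        rw [← pow_mul, mul_comm n 2, pow_mul]; norm_num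
    _ ≤ (k * ∑ j ∈ Finset.range k, ((A j).card : ℝ) ^ 2) * q ^ (t + 1) :=
        mul_le_mul_of_nonneg_right hcs hq0
    _ = k * ∑ j ∈ Finset.range k, (((A j).card : ℝ) ^ 2 * q ^ (t + 1)) := by
        rw [mul_assoc, Finset.sum_mul]
    _ ≤ k * ∑ j ∈ Finset.range k, (q + 2 + 1 / q) ^ n := by
        refine mul_le_mul_of_nonneg_left (Finset.sum_le_sum fun j _ => hA j) (Nat.cast_nonneg _)
    _ = (k : ℝ) ^ 2 * (q + 2 + 1 / q) ^ n := by
        rw [Finset.sum_const, Finset.card_range, nsmul_eq_mul]; ring

theorem exists_t (N k : ℕ) (hN : 1 ≤ N) : ∃ t : ℕ,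
    (k : ℝ) ^ 2 * ((1 + 1 / N : ℝ) + 2 + 1 / (1 + 1 / N : ℝ)) ^ (N * (t + 1)) <
      4 ^ (N * (t + 1)) * (1 + 1 / N : ℝ) ^ (t + 1) := by
  have hN' : (1 : ℝ) ≤ N := by exact_mod_cast hN
  have hN0 : (0 : ℝ) < N := by linarith
  set q : ℝ := 1 + 1 / N with hq
  have hq1 : 1 < q := by rw [hq]; have : 0 < 1 / (N : ℝ) := by positivity
                         linarith
  set x : ℝ := 1 / (4 * N ^ 2) with hx
  have hx0 : 0 ≤ x := by positivity
  have hM : q + 2 + 1 / q ≤ 4 * (1 + x) := by
    have e : 4 * (1 + (q - 1) ^ 2 / (4 * q)) = q + 2 + 1 / q := by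
      have : q ≠ 0 := by positivity
      field_simp
      ring
    rw [← e]
    have h1 : (q - 1) ^ 2 / (4 * q) ≤ x := by
      have h2 : (q - 1) ^ 2 = 1 / N ^ 2 := by rw [hq]; ring
      rw [h2, hx, div_div]
      apply one_div_le_one_div_of_le (by positivity)
      nlinarith [sq_nonneg (N : ℝ), mul_pos hN0 hN0]
    linarith
  have hCN : (1 + x) ^ N < q := by
    have h1 : 1 - N * x ≤ (1 - x) ^ N := by
      have := one_add_mul_le_pow (a := -x) (by
        have : x ≤ 1 := by
          rw [hx, div_le_one (by positivity)]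
          nlinarith
        linarith) N
      have e : 1 + (N : ℝ) * -x = 1 - N * x := by ring
      rw [e] at this
      exact this
    have h2 : (1 + x) ^ N * (1 - x) ^ N ≤ 1 := by
      rw [← mul_pow]
      have h3 : (1 + x) * (1 - x) = 1 - x ^ 2 := by ring
      rw [h3]
      have hx1 : x ≤ 1 := by
        rw [hx, div_le_one (by positivity)]
        nlinarith
      exact pow_le_one₀ (by nlinarith) (by nlinarith [sq_nonneg x])
    have h3 : (1 + x) ^ N * (1 - N * x) ≤ 1 :=
      (mul_le_mul_of_nonneg_left h1 (by positivity)).trans h2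
    have h4 : (N : ℝ) * x = 1 / (4 * N) := by
      rw [hx]; field_simp
    rw [h4] at h3
    have h5 : 1 < q * (1 - 1 / (4 * N)) := by
      rw [hq]
      have e : (1 + 1 / (N : ℝ)) * (1 - 1 / (4 * N)) = 1 + (3 * N - 1) / (4 * N ^ 2) := by
        field_simp
        ring
      rw [e]
      have : 0 < (3 * (N : ℝ) - 1) / (4 * N ^ 2) := by
        apply div_pos (by linarith) (by positivity)
      linarith
    by_contra hcon
    push Not at hcon
    have h6 : 0 ≤ 1 - 1 / (4 * (N : ℝ)) := by
      rw [sub_nonneg, div_le_one (by positivity)]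
      linarith
    have := mul_le_mul_of_nonneg_right hcon h6
    linarith
  have hC0 : 0 < (1 + x) ^ N := by positivity
  obtain ⟨t, ht⟩ := pow_unbounded_of_one_lt ((k : ℝ) ^ 2) ((one_lt_div hC0).mpr hCN)
  refine ⟨t, ?_⟩
  have ht' : (k : ℝ) ^ 2 < (q / (1 + x) ^ N) ^ (t + 1) := by
    refine ht.trans_le (pow_le_pow_right₀ ((one_lt_div hC0).mpr hCN).le (Nat.le_succ t))
  rw [div_pow, lt_div_iff₀ (by positivity)] at ht'
  calc (k : ℝ) ^ 2 * (q + 2 + 1 / q) ^ (N * (t + 1))
      ≤ (k : ℝ) ^ 2 * (4 * (1 + x)) ^ (N * (t + 1)) := by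
        refine mul_le_mul_of_nonneg_left ?_ (by positivity)
        exact pow_le_pow_left₀ (by positivity) hM _
    _ = 4 ^ (N * (t + 1)) * ((k : ℝ) ^ 2 * ((1 + x) ^ N) ^ (t + 1)) := by
        rw [mul_pow, ← pow_mul]; ring
    _ < 4 ^ (N * (t + 1)) * q ^ (t + 1) := by
        refine mul_lt_mul_of_pos_left ht' (by positivity)

theorem ZG_locBip {n t r ρ : ℕ} (hn : 2 ^ r * (2 * ((ρ + 1) * t) + 1) ≤ n) :
    LocBip (ZG n t) r ρ := by
  classical
  intro R hR
  have hfin : R.Finite := Set.toFinite R
  set Rf : Finset (Fin n → Bool) := hfin.toFinset with hRf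
  have hcard : Rf.card ≤ r := hR Rf (fun x hx => hfin.mem_toFinset.mp hx)
  obtain ⟨w, hw⟩ := Fintype.exists_le_card_fiber_of_mul_le_card
    (fun i : Fin n => fun a : Rf => (a : Fin n → Bool) i) (n := 2 * ((ρ + 1) * t) + 1) (by
      rw [Fintype.card_fin]
      refine le_trans (Nat.mul_le_mul_right _ ?_) hn
      rw [Fintype.card_pi]
      simp only [Fintype.card_bool, Finset.prod_const, Finset.card_univ, Fintype.card_coe]
      exact Nat.pow_le_pow_right (by norm_num) hcard)
  set S : Finset (Fin n) := Finset.univ.filter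
    (fun i => (fun a : Rf => (a : Fin n → Bool) i) = w) with hS
  have hconst : ∀ a (ha : a ∈ R), ∀ i ∈ S, a i = w ⟨a, hfin.mem_toFinset.mpr ha⟩ := by
    intro a ha i hi
    have := (Finset.mem_filter.mp hi).2
    exact congrFun this ⟨a, hfin.mem_toFinset.mpr ha⟩
  have hstep : ∀ (b b' : Fin n → Bool) (ε : Bool) (m : ℕ),
      (S.filter (fun i => b i ≠ ε)).card ≤ m → (ZG n t).Adj b b' →
      (S.filter (fun i => b' i ≠ !ε)).card ≤ m + t := by
    intro b b' ε m hm hadj
    have h1 : S.filter (fun i => b' i ≠ !ε) ⊆
        S.filter (fun i => b i ≠ ε) ∪ Finset.univ.filter (fun i => b i = b' i) := by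
      intro i hi
      obtain ⟨hi1, hi2⟩ := Finset.mem_filter.mp hi
      by_cases h : b i = ε
      · refine Finset.mem_union_right _ (Finset.mem_filter.mpr ⟨Finset.mem_univ _, ?_⟩)
        rw [h]
        cases h3 : b' i <;> cases ε <;> simp_all
      · exact Finset.mem_union_left _ (Finset.mem_filter.mpr ⟨hi1, h⟩)
    refine (Finset.card_le_card h1).trans ((Finset.card_union_le _ _).trans ?_)
    have h2 : (Finset.univ.filter (fun i => b i = b' i)).card ≤ t := by
      have := hadj.2
      unfold agr at this
      rwa [← Finset.card_filter] at this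
    omega
  have hball : ∀ j, ∀ b ∈ ball (ZG n t) R j, ∃ ε : Bool,
      (S.filter (fun i => b i ≠ ε)).card ≤ j * t := by
    intro j
    induction j with
    | zero =>
      intro b hb
      refine ⟨w ⟨b, hfin.mem_toFinset.mpr hb⟩, ?_⟩
      rw [Finset.filter_false_of_mem]
      · simp
      · intro i hi
        exact not_not.mpr (hconst b hb i hi)
    | succ j ih =>
      rintro b (hb | ⟨a, ha, hab⟩)
      · obtain ⟨ε, h⟩ := ih b hb
        exact ⟨ε, h.trans (Nat.mul_le_mul_right _ (Nat.le_succ j))⟩
      · obtain ⟨ε, h⟩ := ih a ha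
        refine ⟨!ε, ?_⟩
        have := hstep a b ε _ h hab
        rw [Nat.succ_mul]
        exact this
  let π : (Fin n → Bool) → Bool := fun b =>
    decide (S.card < 2 * (S.filter (fun i => b i = true)).card)
  have hπ : ∀ (b : Fin n → Bool) (ε : Bool),
      (S.filter (fun i => b i ≠ ε)).card ≤ (ρ + 1) * t → π b = ε := by
    intro b ε hb
    have hsplit : (S.filter (fun i => b i = true)).card + (S.filter (fun i => b i ≠ true)).card =
        S.card := Finset.card_filter_add_card_filter_not (fun i => b i = true)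
    have hsplit2 : (S.filter (fun i => b i ≠ false)) = (S.filter (fun i => b i = true)) := by
      refine Finset.filter_congr fun i _ => ?_
      cases b i <;> simp
    cases ε
    · rw [hsplit2] at hb
      simp only [π, decide_eq_false_iff_not]
      omega
    · simp only [π, decide_eq_true_eq]
      omega
  refine ⟨π, ?_⟩
  intro x hx y _ hxy
  obtain ⟨ε, hε⟩ := hball ρ x hx
  have h1 : π x = ε := hπ x ε (hε.trans (Nat.mul_le_mul_right _ (Nat.le_succ ρ)))
  have h2 : π y = !ε := hπ y (!ε) (by
    have := hstep x y ε _ hε hxy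
    rw [Nat.succ_mul]
    exact this)
  rw [h1, h2]
  cases ε <;> simp

/-- Finite graphs which are not `k`-colourable and in which balls of radius `ρ` around at most
`r` points span a bipartite graph. -/
theorem exists_locBip (r ρ k : ℕ) : ∃ (n : ℕ) (G : SimpleGraph (Fin n → Bool)),
    LocBip G r ρ ∧ ¬ ColOn G Set.univ k := by
  set N : ℕ := 2 ^ r * (2 * (ρ + 1) + 1) with hN
  have hN1 : 1 ≤ N := by
    rw [hN]
    exact Nat.mul_pos (by positivity) (by omega)
  obtain ⟨t, ht⟩ := exists_t N k hN1
  refine ⟨N * (t + 1), ZG (N * (t + 1)) t, ZG_locBip ?_, ?_⟩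
  · rw [hN, mul_assoc]
    refine Nat.mul_le_mul_left _ ?_
    nlinarith
  · intro hc
    have h1 : t < N * (t + 1) := by nlinarith
    have h2 := ZG_count h1 hc (q := 1 + 1 / (N : ℝ)) (by
      have : 0 ≤ 1 / (N : ℝ) := by positivity
      linarith)
    linarith

end Pool.Agent.H43.Cyc
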