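import Pool.Agent.H43.Cyc.Path

/-!
# Odd cycles spanning subgraphs of large chromatic number: definitions

`ColOn G X k`: the subgraph of `G` induced on `X` can be coloured with `k` colours.
`ball G R j`: the points at distance at most `j` of `R`.
`LocBip G r ρ`: balls of radius `ρ` around at most `r` points span a bipartite graph.
`LF G s r H`: every set `U` with the path property `QQ` can be coloured with four colours so
that near few prescribed points the colouring is a given height function modulo three.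
-/

namespace Pool.Agent.H43.Cyc

/-- The subgraph of `G` induced on `X` has a proper colouring with `k` colours. -/
def ColOn {V : Type} (G : SimpleGraph V) (X : Set V) (k : ℕ) : Prop :=
  ∃ c : V → ℕ, (∀ x ∈ X, c x < k) ∧ ∀ x ∈ X, ∀ y ∈ X, G.Adj x y → c x ≠ c y

theorem ColOn.mono {V : Type} {G : SimpleGraph V} {X : Set V} {k l : ℕ} (h : ColOn G X k)
    (hkl : k ≤ l) : ColOn G X l := by
  obtain ⟨c, h1, h2⟩ := h
  exact ⟨c, fun x hx => (h1 x hx).trans_le hkl, h2⟩

theorem ColOn.subset {V : Type} {G : SimpleGraph V} {X Y : Set V} {k : ℕ} (h : ColOn G X k)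
    (hXY : Y ⊆ X) : ColOn G Y k := by
  obtain ⟨c, h1, h2⟩ := h
  exact ⟨c, fun x hx => h1 x (hXY hx), fun x hx y hy => h2 x (hXY hx) y (hXY hy)⟩

theorem ColOn.of_fintype {V : Type} {G : SimpleGraph V} {X : Set V} {κ : Type} [Fintype κ]
    (c : V → κ) (hc : ∀ x ∈ X, ∀ y ∈ X, G.Adj x y → c x ≠ c y) :
    ColOn G X (Fintype.card κ) := by
  classical
  refine ⟨fun x => (Fintype.equivFin κ (c x) : ℕ), fun x _ => (Fintype.equivFin κ (c x)).2, ?_⟩
  intro x hx y hy hxy he
  exact hc x hx y hy hxy ((Fintype.equivFin κ).injective (Fin.ext he))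

theorem ColOn.of_finset {V : Type} {G : SimpleGraph V} {X : Set V} (S : Finset ℕ)
    (c : V → ℕ) (hS : ∀ x ∈ X, c x ∈ S)
    (hc : ∀ x ∈ X, ∀ y ∈ X, G.Adj x y → c x ≠ c y) :
    ColOn G X S.card := by
  classical
  refine ⟨fun x => if h : c x ∈ S then (S.equivFin ⟨c x, h⟩ : ℕ) else 0, ?_, ?_⟩
  · intro x hx
    simp only [hS x hx, dif_pos]
    exact (S.equivFin ⟨c x, hS x hx⟩).2
  · intro x hx y hy hxy he
    simp only [hS x hx, hS y hy, dif_pos] at he
    have := S.equivFin.injective (Fin.ext he)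
    exact hc x hx y hy hxy (congrArg Subtype.val this)

/-- The points at distance at most `j` of `R`. -/
def ball {V : Type} (G : SimpleGraph V) (R : Set V) : ℕ → Set V
  | 0 => R
  | j + 1 => {x | x ∈ ball G R j ∨ ∃ y ∈ ball G R j, G.Adj y x}

theorem ball_succ {V : Type} (G : SimpleGraph V) (R : Set V) (j : ℕ) :
    ball G R j ⊆ ball G R (j + 1) := fun _ hx => Or.inl hx

theorem ball_mono {V : Type} (G : SimpleGraph V) (R : Set V) {i j : ℕ} (h : i ≤ j) :
    ball G R i ⊆ ball G R j := by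
  induction h with
  | refl => exact subset_rfl
  | step _ ih => exact ih.trans (ball_succ G R _)

/-- Balls of radius `ρ` around at most `r` points span a bipartite graph. -/
def LocBip {V : Type} (G : SimpleGraph V) (r ρ : ℕ) : Prop :=
  ∀ R : Set V, (∀ F : Finset V, (∀ x ∈ F, x ∈ R) → F.card ≤ r) →
    ∃ π : V → Bool, ∀ x ∈ ball G R ρ, ∀ y ∈ ball G R ρ, G.Adj x y → π x ≠ π y

theorem ball_map {V W : Type} {G : SimpleGraph V} {K : SimpleGraph W} (φ : V → W)
    (hφ : ∀ x y, G.Adj x y → K.Adj (φ x) (φ y)) (R : Set V) (j : ℕ) :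
    ∀ x ∈ ball G R j, φ x ∈ ball K (φ '' R) j := by
  induction j with
  | zero => intro x hx; exact ⟨x, hx, rfl⟩
  | succ j ih =>
    rintro x (hx | ⟨y, hy, hyx⟩)
    · exact Or.inl (ih x hx)
    · exact Or.inr ⟨φ y, ih y hy, hφ _ _ hyx⟩

theorem LocBip.of_hom {V W : Type} {G : SimpleGraph V} {K : SimpleGraph W} {r ρ : ℕ}
    (h : LocBip K r ρ) (φ : V → W) (hφ : ∀ x y, G.Adj x y → K.Adj (φ x) (φ y)) :
    LocBip G r ρ := by
  classical
  intro R hR
  obtain ⟨π, hπ⟩ := h (φ '' R) (by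
    intro F hF
    choose g hg hg' using hF
    have : F.card = (F.attach.image (fun x => g x.1 x.2)).card := by
      rw [Finset.card_image_of_injective, Finset.card_attach]
      intro a b hab
      have h1 := hg' a.1 a.2
      have h2 := hg' b.1 b.2
      simp only at hab
      rw [hab] at h1
      exact Subtype.ext (h1.symm.trans h2)
    rw [this]
    refine hR _ ?_
    intro x hx
    obtain ⟨a, _, rfl⟩ := Finset.mem_image.mp hx
    exact hg a.1 a.2)
  exact ⟨fun x => π (φ x), fun x hx y hy hxy =>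
    hπ _ (ball_map φ hφ R ρ x hx) _ (ball_map φ hφ R ρ y hy) (hφ _ _ hxy)⟩

/-- The capped distance to `R`. -/
noncomputable def cdist {V : Type} (G : SimpleGraph V) (R : Set V) (ρ : ℕ) (x : V) : ℕ := by
  classical
  exact ((Finset.range ρ).filter (fun j => x ∉ ball G R j)).card

theorem cdist_adj {V : Type} (G : SimpleGraph V) (R : Set V) (ρ : ℕ) {x y : V}
    (hxy : G.Adj x y) : cdist G R ρ y ≤ cdist G R ρ x + 1 := by
  classical
  unfold cdist
  have : (Finset.range ρ).filter (fun j => y ∉ ball G R j) ⊆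
      insert 0 (((Finset.range ρ).filter (fun j => x ∉ ball G R j)).image (· + 1)) := by
    intro j hj
    obtain ⟨hj1, hj2⟩ := Finset.mem_filter.mp hj
    rcases j with _ | j
    · exact Finset.mem_insert_self _ _
    · refine Finset.mem_insert_of_mem (Finset.mem_image.mpr ⟨j, ?_, rfl⟩)
      refine Finset.mem_filter.mpr ⟨Finset.mem_range.mpr ?_, ?_⟩
      · have := Finset.mem_range.mp hj1; omega
      · intro hx
        exact hj2 (Or.inr ⟨x, hx, hxy⟩)
  refine (Finset.card_le_card this).trans ((Finset.card_insert_le _ _).trans ?_)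
  exact Nat.add_le_add_right Finset.card_image_le 1

theorem cdist_eq_zero {V : Type} (G : SimpleGraph V) (R : Set V) {ρ : ℕ} (hρ : 0 < ρ) {x : V} :
    cdist G R ρ x = 0 ↔ x ∈ R := by
  classical
  unfold cdist
  rw [Finset.card_eq_zero, Finset.filter_eq_empty_iff]
  constructor
  · intro h
    have := h (x := 0) (Finset.mem_range.mpr hρ)
    exact not_not.mp this
  · intro h j _
    exact not_not.mpr (ball_mono G R (Nat.zero_le j) h)

theorem cdist_lt {V : Type} (G : SimpleGraph V) (R : Set V) {ρ : ℕ} {x : V}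
    (h : cdist G R ρ x < ρ) : x ∈ ball G R ρ := by
  classical
  by_contra hx
  have : (Finset.range ρ).filter (fun j => x ∉ ball G R j) = Finset.range ρ := by
    rw [Finset.filter_eq_self]
    intro j hj hxj
    exact hx (ball_mono G R (Finset.mem_range.mp hj).le hxj)
  unfold cdist at h
  rw [this, Finset.card_range] at h
  exact lt_irrefl _ h

/-- Every set `U` with the path property can be coloured with the colours `0, 1, 2, 3` so that
at the (at most `r`) points with `δ = 0` the colour is the given height modulo three. -/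
def LF {V : Type} (G : SimpleGraph V) (s r H : ℕ) : Prop :=
  ∀ U : Set V, QQ G s U → ∀ (δ : V → ℕ) (h : V → ℤ),
    (∀ x ∈ U, ∀ y ∈ U, G.Adj x y → δ y ≤ δ x + 1) →
    (∀ F : Finset V, (∀ x ∈ F, x ∈ U ∧ δ x = 0) → F.card ≤ r) →
    (∀ x ∈ U, -(H : ℤ) ≤ h x ∧ h x ≤ H) →
    (∀ x ∈ U, ∀ y ∈ U, G.Adj x y → δ x < H + 5 → δ y < H + 5 →
      h x = h y + 1 ∨ h y = h x + 1) →
    ∃ c : V → ℤ, (∀ x ∈ U, 0 ≤ c x ∧ c x ≤ 3) ∧
      (∀ x ∈ U, ∀ y ∈ U, G.Adj x y → c x ≠ c y) ∧
      ∀ x ∈ U, δ x = 0 → c x = h x % 3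

/-- The height function with the parity `p` made from `h`, flattened when `e` is large. -/
def HT (H : ℕ) (h : ℤ) (p : ℤ) (e : ℕ) : ℤ :=
  max (-(max 1 ((H : ℤ) + 5 - e) - 1) + (p + (max 1 ((H : ℤ) + 5 - e) - 1)) % 2)
    (min (if (h + p) % 2 = 0 then h else h + 3)
      (max 1 ((H : ℤ) + 5 - e) - (max 1 ((H : ℤ) + 5 - e) - p) % 2))

theorem HT_bd (H : ℕ) {h p : ℤ} {e : ℕ} (hp : p = 0 ∨ p = 1) (h1 : -(H : ℤ) ≤ h) (h2 : h ≤ H) :
    -((H + 3 : ℕ) : ℤ) ≤ HT H h p e ∧ HT H h p e ≤ ((H + 3 : ℕ) : ℤ) := by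
  unfold HT
  push_cast
  rcases hp with rfl | rfl <;> split_ifs <;> omega

theorem HT_mod (H : ℕ) {h p : ℤ} {e : ℕ} (hp : p = 0 ∨ p = 1) (h1 : -(H : ℤ) ≤ h) (h2 : h ≤ H)
    (he : e ≤ 1) : HT H h p e % 3 = h % 3 := by
  unfold HT
  rcases hp with rfl | rfl <;> split_ifs <;> omega

theorem HT_adj (H : ℕ) {h h' p p' : ℤ} {e e' : ℕ} (hp : (p = 0 ∧ p' = 1) ∨ (p = 1 ∧ p' = 0))
    (he : e ≤ e' + 1) (he' : e' ≤ e + 1)
    (hh : e < H + 5 → e' < H + 5 → h = h' + 1 ∨ h' = h + 1) :
    HT H h p e = HT H h' p' e' + 1 ∨ HT H h' p' e' = HT H h p e + 1 := by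
  unfold HT
  rcases hp with ⟨rfl, rfl⟩ | ⟨rfl, rfl⟩
  · by_cases hc : e < H + 5 ∧ e' < H + 5
    · have := hh hc.1 hc.2
      split_ifs <;> omega
    · split_ifs <;> omega
  · by_cases hc : e < H + 5 ∧ e' < H + 5
    · have := hh hc.1 hc.2
      split_ifs <;> omega
    · split_ifs <;> omega

end Pool.Agent.H43.Cyc
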