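import Pool.Agent.H43.Cyc.Tree

/-!
# Graphs of large chromatic number in which paths span four-colourable subgraphs
-/

namespace Pool.Agent.H43.Cyc

/-- The trees need one colour more. -/
theorem tree_col {V α : Type} [Fintype α] [DecidableEq α] [Nonempty V] {H : SimpleGraph V}
    {P : SimpleGraph α} {p : V → α} {K m : ℕ} (hK : 1 ≤ K)
    (hC : ∀ B : Set α, ¬ ColOn P B K → ¬ ColOn H (p ⁻¹' B) m)
    (B : Set α) (hB : ¬ ColOn P B ((m + 1) * K)) :
    ∀ (d : ℕ) (f : Tr V α d → ℕ) (S : Finset ℕ), S.card ≤ m + 1 →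
      (∀ x, pos p d x ∈ B → f x ∈ S) →
      (∀ x y, pos p d x ∈ B → pos p d y ∈ B → (TG H P p d).Adj x y → f x ≠ f y) →
      ∀ A : ℕ → Finset α,
      (∀ x, isLeaf d x → pos p d x ∈ B → ∀ v ∈ A (f x), ¬ P.Adj v (pos p d x)) →
      (∑ c ∈ S, (Finset.univ \ A c).card ≤ d) → False := by
  classical
  -- the case that all colours are exhausted
  have hdone : ∀ (d : ℕ) (f : Tr V α d → ℕ) (S : Finset ℕ), S.card ≤ m + 1 →
      (∀ x, pos p d x ∈ B → f x ∈ S) → ∀ A : ℕ → Finset α,
      (∀ x, isLeaf d x → pos p d x ∈ B → ∀ v ∈ A (f x), ¬ P.Adj v (pos p d x)) →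
      (∀ c ∈ S, ColOn P (B \ (A c : Set α)) K) → False := by
    intro d f S hS hfS A hA hall
    have hleaf : ∀ (d : ℕ) (v : α), ∃ x : Tr V α d, isLeaf d x ∧ pos p d x = v := by
      intro d
      induction d with
      | zero => intro v; exact ⟨v, trivial, rfl⟩
      | succ d ih =>
        intro v
        obtain ⟨x, hx1, hx2⟩ := ih v
        exact ⟨((Classical.arbitrary V, some x) : V × Option (Tr V α d)), hx1, hx2⟩
    choose lf hlf1 hlf2 using hleaf d
    choose! κ hκ1 hκ2 using hall
    apply hB
    have hcol : ColOn P B (Fintype.card (S × Fin K)) := by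
      by_cases hSe : B = ∅
      · subst hSe
        exact ⟨fun _ => 0, fun x hx => hx.elim, fun x hx => hx.elim⟩
      obtain ⟨v0, hv0⟩ := Set.nonempty_iff_ne_empty.mpr hSe
      have hmem : ∀ v ∈ B, f (lf v) ∈ S := fun v hv => hfS _ (by rw [hlf2]; exact hv)
      refine ColOn.of_fintype (κ := S × Fin K) (fun v =>
        (if h : v ∈ B then ⟨f (lf v), hmem v h⟩ else ⟨f (lf v0), hmem v0 hv0⟩,
          if h : v ∈ B ∧ v ∉ A (f (lf v)) then
            ⟨κ (f (lf v)) v, hκ1 _ (hmem v h.1) v ⟨h.1, h.2⟩⟩ else ⟨0, hK⟩)) ?_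
      intro v hv w hw hvw he
      simp only [hv, hw, dif_pos, true_and, Prod.mk.injEq] at he
      obtain ⟨he1, he2⟩ := he
      have he1' : f (lf v) = f (lf w) := congrArg Subtype.val he1
      have hv' : v ∉ A (f (lf v)) := by
        intro hmemv
        rw [he1'] at hmemv
        have := hA (lf w) (hlf1 w) (by rw [hlf2]; exact hw) v hmemv
        rw [hlf2] at this
        exact this hvw
      have hw' : w ∉ A (f (lf w)) := by
        intro hmemw
        rw [← he1'] at hmemw
        have := hA (lf v) (hlf1 v) (by rw [hlf2]; exact hv) w hmemw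
        rw [hlf2] at this
        exact this hvw.symm
      rw [dif_pos hv', dif_pos hw'] at he2
      have he3 : κ (f (lf v)) v = κ (f (lf w)) w := congrArg Fin.val he2
      rw [← he1'] at he3
      exact hκ2 _ (hmem v hv) v ⟨hv, hv'⟩ w ⟨hw, by rw [he1']; exact hw'⟩ hvw he3
    refine hcol.mono ?_
    rw [Fintype.card_prod, Fintype.card_coe, Fintype.card_fin]
    exact Nat.mul_le_mul_right _ hS
  intro d
  induction d with
  | zero =>
    intro f S hS hfS _ A hA hd
    refine hdone 0 f S hS hfS A hA ?_
    intro c hc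
    have h0 : (Finset.univ \ A c).card = 0 := by
      have : (Finset.univ \ A c).card ≤ ∑ c ∈ S, (Finset.univ \ A c).card :=
        Finset.single_le_sum (f := fun c => (Finset.univ \ A c).card)
          (fun i _ => Nat.zero_le _) hc
      omega
    have h1 : B \ (A c : Set α) = ∅ := by
      rw [Set.eq_empty_iff_forall_notMem]
      rintro x ⟨_, hx⟩
      have : x ∈ Finset.univ \ A c := by
        rw [Finset.mem_sdiff]
        exact ⟨Finset.mem_univ _, fun h => hx h⟩
      rw [Finset.card_eq_zero.mp h0] at this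
      exact absurd this (Finset.notMem_empty x)
    rw [h1]
    exact ⟨fun _ => 0, fun x hx => hx.elim, fun x hx => hx.elim⟩
  | succ d ih =>
    intro f S hS hfS hprop A hA hd
    by_cases hall : ∀ c ∈ S, ColOn P (B \ (A c : Set α)) K
    · exact hdone (d + 1) f S hS hfS A hA hall
    push Not at hall
    obtain ⟨c, hc, hcc⟩ := hall
    have hH := hC _ hcc
    have hex : ∃ a : V, p a ∈ B ∧ p a ∉ A c ∧ f ((a, none) : V × Option (Tr V α d)) = c := by
      by_contra hcon
      push Not at hcon
      apply hH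
      have hcol := ColOn.of_finset (G := H) (X := p ⁻¹' (B \ (A c : Set α))) (S.erase c)
        (fun a => f ((a, none) : V × Option (Tr V α d)))
        (by
          intro a ha
          exact Finset.mem_erase.mpr ⟨hcon a ha.1 (fun h => ha.2 h),
            hfS ((a, none) : V × Option (Tr V α d)) ha.1⟩)
        (by
          intro a ha b hb hab
          exact hprop _ _ ha.1 hb.1 (adj_nn.mpr hab))
      refine hcol.mono ?_
      rw [Finset.card_erase_of_mem hc]
      omega
    obtain ⟨a, haB, haA, hac⟩ := hex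
    refine ih (fun x => f ((a, some x) : V × Option (Tr V α d))) S hS
      (fun x hx => hfS ((a, some x) : V × Option (Tr V α d)) hx)
      (fun x y hx hy hxy => hprop _ _ hx hy (adj_ss.mpr ⟨rfl, hxy⟩))
      (fun i => if i = c then insert (p a) (A c) else A i) ?_ ?_
    · intro x hl hx v hv hadj
      have hold := hA ((a, some x) : V × Option (Tr V α d)) hl hx v
      split_ifs at hv with hi
      · rcases Finset.mem_insert.mp hv with h | h
        · have hne := hprop ((a, none) : V × Option (Tr V α d))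
            ((a, some x) : V × Option (Tr V α d)) haB hx
            (adj_ns.mpr ⟨rfl, hl, h ▸ hadj⟩)
          exact hne (hac.trans hi.symm)
        · rw [hi] at hold
          exact hold h hadj
      · exact hold hv hadj
    · have hlt : ∑ i ∈ S, (Finset.univ \ (if i = c then insert (p a) (A c) else A i)).card <
          ∑ i ∈ S, (Finset.univ \ A i).card := by
        refine Finset.sum_lt_sum ?_ ⟨c, hc, ?_⟩
        · intro i _
          refine Finset.card_le_card (Finset.sdiff_subset_sdiff subset_rfl ?_)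
          split_ifs with hi
          · rw [hi]; exact Finset.subset_insert _ _
          · exact subset_rfl
        · rw [if_pos rfl]
          refine Finset.card_lt_card ⟨Finset.sdiff_subset_sdiff subset_rfl
            (Finset.subset_insert _ _), ?_⟩
          intro hsub
          have h1 : p a ∈ Finset.univ \ A c :=
            Finset.mem_sdiff.mpr ⟨Finset.mem_univ _, haA⟩
          have h2 := hsub h1
          exact (Finset.mem_sdiff.mp h2).2 (Finset.mem_insert_self _ _)
      omega

/-- The categorical product of two graphs. -/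
def prodG {α ζ : Type} (P : SimpleGraph α) (Z : SimpleGraph ζ) : SimpleGraph (α × ζ) where
  Adj x y := P.Adj x.1 y.1 ∧ Z.Adj x.2 y.2
  symm := by
    constructor
    intro x y h
    exact ⟨h.1.symm, h.2.symm⟩
  loopless := by
    constructor
    intro x h
    exact P.loopless.irrefl _ h.1

theorem prod_col {α ζ : Type} [Fintype α] [DecidableEq α] {P : SimpleGraph α}
    {Z : SimpleGraph ζ} {k : ℕ} (hk : 1 ≤ k) (hZ : ¬ ColOn Z Set.univ (k ^ Fintype.card α))
    {B : Set α} (h : ColOn (prodG P Z) (Prod.fst ⁻¹' B) k) : ColOn P B k := by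
  classical
  obtain ⟨f, hf1, hf2⟩ := h
  have hex : ∃ z z' : ζ, Z.Adj z z' ∧ ∀ a, f (a, z) % k = f (a, z') % k := by
    by_contra hcon
    push Not at hcon
    apply hZ
    have := ColOn.of_fintype (G := Z) (X := Set.univ) (κ := α → Fin k)
      (fun z a => ⟨f (a, z) % k, Nat.mod_lt _ hk⟩) (by
        intro z _ z' _ hzz he
        obtain ⟨a, ha⟩ := hcon z z' hzz
        exact ha (congrArg Fin.val (congrFun he a)))
    simpa using this
  obtain ⟨z, z', hzz, he⟩ := hex
  refine ⟨fun a => f (a, z), fun a ha => hf1 (a, z) ha, ?_⟩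
  intro a ha b hb hab heq
  refine hf2 (a, z) ha (b, z') hb ⟨hab, hzz⟩ ?_
  have h1 := he b
  rw [Nat.mod_eq_of_lt (hf1 (b, z) hb), Nat.mod_eq_of_lt (hf1 (b, z') hb)] at h1
  exact heq.trans h1

/-- The main induction. -/
theorem main (m : ℕ) : ∀ (α : Type) (_ : Finite α) (P : SimpleGraph α) (s r K : ℕ),
    ∃ (V : Type) (_ : Finite V) (G : SimpleGraph V) (p : V → α),
      (∀ x y, G.Adj x y → P.Adj (p x) (p y)) ∧
      (∀ B : Set α, ¬ ColOn P B m.factorial → ¬ ColOn G (p ⁻¹' B) m) ∧ LF G s r K := by
  classical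
  induction m with
  | zero =>
    intro α _ P s r K
    refine ⟨α, ‹_›, ⊥, id, fun x y h => h.elim, ?_, ?_⟩
    · intro B hB hcol
      obtain ⟨c, hc, _⟩ := hcol
      apply hB
      refine ⟨fun _ => 0, fun x hx => ?_, fun x hx => ?_⟩
      · exact absurd (hc x hx) (Nat.not_lt_zero _)
      · exact absurd (hc x hx) (Nat.not_lt_zero _)
    · intro U _ δ h _ _ _ _
      refine ⟨fun x => h x % 3, ?_, ?_, ?_⟩
      · intro x _
        dsimp only
        omega
      · intro x _ y _ hxy
        exact hxy.elim
      · intro x _ _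
        rfl
  | succ m ih =>
    intro α hα P s r K
    have : Fintype α := Fintype.ofFinite α
    set d : ℕ := (m + 1) * Fintype.card α with hd
    set s' : ℕ := s + d with hs'
    set r' : ℕ := 2 * s' + r with hr'
    obtain ⟨n, Z, hZ1, hZ2⟩ := exists_locBip r' (K + 3 + 5) (m.factorial ^ Fintype.card α)
    obtain ⟨V, hV, H, p', hp', hC', hLF⟩ :=
      ih (α × (Fin n → Bool)) inferInstance (prodG P Z) s' r' (K + 3)
    let p : V → α := fun x => (p' x).1
    have hp : ∀ x y, H.Adj x y → P.Adj (p x) (p y) := fun x y h => (hp' x y h).1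
    have hC : ∀ B : Set α, ¬ ColOn P B m.factorial → ¬ ColOn H (p ⁻¹' B) m := by
      intro B hB
      exact hC' (Prod.fst ⁻¹' B) (fun h => hB (prod_col (Nat.factorial_pos m) hZ2 h))
    have hLB : LocBip H r' (K + 3 + 5) := hZ1.of_hom (fun x => (p' x).2) (fun x y h => (hp' x y h).2)
    refine ⟨Tr V α d, finite_Tr d, TG H P p d, pos p d, TG_hom hp d, ?_, ?_⟩
    · intro B hB hcol
      rw [Nat.factorial_succ] at hB
      have hB' : ¬ ColOn P B m.factorial := fun h => hB (h.mono (Nat.le_mul_of_pos_left _ (by omega)))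
      have hne : Nonempty V := by
        by_contra hcon
        rw [not_nonempty_iff] at hcon
        exact hC B hB' ⟨fun _ => 0, fun x => (hcon.false x).elim, fun x => (hcon.false x).elim⟩
      obtain ⟨f, hf1, hf2⟩ := hcol
      refine tree_col (Nat.factorial_pos m) hC B hB d f (Finset.range (m + 1)) (by simp)
        (fun x hx => Finset.mem_range.mpr (hf1 x hx)) (fun x y hx hy hxy => hf2 x hx y hy hxy)
        (fun _ => ∅) (by simp) ?_
      simp [hd]
    · intro U hU δ h h1 h2 h3 h4
      obtain ⟨c, hc1, hc2, hc3, _⟩ := LF_tree hLF hLB d s le_rfl U hU δ h h1 h2 h3 h4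
      exact ⟨c, hc1, hc2, hc3⟩

/-- For every `M` there is a finite graph which is not `M`-colourable and in which every path
spans a four-colourable subgraph. -/
theorem exists_graph (M : ℕ) : ∃ (n : ℕ) (G : SimpleGraph (Fin n)),
    (M : ℕ∞) ≤ G.chromaticNumber ∧ ∀ (v : ℕ → Fin n) (l : ℕ),
      (∀ i j, i ≤ l → j ≤ l → v i = v j → i = j) → (∀ i, i < l → G.Adj (v i) (v (i + 1))) →
      ∀ U : Set (Fin n), (∀ x ∈ U, ∃ i, i ≤ l ∧ v i = x) →
      (G.induce U).chromaticNumber ≤ ((4 : ℕ) : ℕ∞) := by
  classical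
  obtain ⟨V, hV, G, p, hp, hC, hLF⟩ :=
    main M (Fin (M.factorial + 1)) inferInstance ⊤ 1 0 0
  have : Fintype V := Fintype.ofFinite V
  have hcol : ¬ ColOn G Set.univ M := by
    have h1 : ¬ ColOn (⊤ : SimpleGraph (Fin (M.factorial + 1))) Set.univ M.factorial := by
      rintro ⟨c, hc1, hc2⟩
      have hinj : Function.Injective (fun x : Fin (M.factorial + 1) =>
          (⟨c x, hc1 x (Set.mem_univ _)⟩ : Fin M.factorial)) := by
        intro x y hxy
        by_contra hne
        exact hc2 x (Set.mem_univ _) y (Set.mem_univ _) hne (congrArg Fin.val hxy)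
      have := Fintype.card_le_of_injective _ hinj
      simp at this
    have := hC Set.univ h1
    simpa using this
  let e : V ≃ Fin (Fintype.card V) := Fintype.equivFin V
  refine ⟨Fintype.card V, G.comap e.symm, ?_, ?_⟩
  · by_contra hcon
    push Not at hcon
    have h1 : (G.comap e.symm).chromaticNumber ≤ (M : ℕ∞) := hcon.le
    rw [SimpleGraph.chromaticNumber_le_iff_colorable] at h1
    obtain ⟨C⟩ := h1
    refine hcol ⟨fun x => (C (e x) : ℕ), fun x _ => (C (e x)).2, ?_⟩
    intro x _ y _ hxy heq
    have : (G.comap e.symm).Adj (e x) (e y) := by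
      simpa using hxy
    exact C.valid this (Fin.ext heq)
  · intro v l hinj hadj U hU
    have hQ := QQ_path G (fun i => e.symm (v i)) l
      (fun i j hi hj hij => hinj i j hi hj (e.symm.injective hij))
      (fun i hi => hadj i hi)
    obtain ⟨c, hc1, hc2, _⟩ := hLF _ hQ (fun _ => 5) (fun _ => 0)
      (fun _ _ _ _ _ => Nat.le_succ _)
      (by
        intro F hF
        rcases F.eq_empty_or_nonempty with h | ⟨x, hx⟩
        · rw [h]; simp
        · exact absurd (hF x hx).2 (by norm_num))
      (by intro x _; simp)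
      (by
        intro x _ y _ _ h5
        exact absurd h5 (by norm_num))
    rw [SimpleGraph.chromaticNumber_le_iff_colorable]
    have hm : ∀ x : U, e.symm (x : Fin (Fintype.card V)) ∈
        {x | ∃ i, i ≤ l ∧ e.symm (v i) = x} := by
      intro x
      obtain ⟨i, hi, hix⟩ := hU x x.2
      exact ⟨i, hi, by rw [hix]⟩
    refine ⟨SimpleGraph.Coloring.mk (fun x : U =>
      (⟨(c (e.symm x)).toNat, by
        have := hc1 _ (hm x)
        omega⟩ : Fin 4)) ?_⟩
    intro x y hxy heq
    have h1 := hc2 _ (hm x) _ (hm y) hxy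
    have h2 : (c (e.symm x)).toNat = (c (e.symm y)).toNat := congrArg Fin.val heq
    have h3 := hc1 _ (hm x)
    have h4 := hc1 _ (hm y)
    omega

end Pool.Agent.H43.Cyc
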