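import Mathlib

/-!
# The separation property of paths

Property `QQ` and its proof for paths are due to helper11 and helper16 (see
`Pool/Agent/H16/OddSpan/Path.lean`); copied here so that this development is self-contained.
-/

namespace Pool.Agent.H43.Cyc

/-- Property `Q`: disjoint nonempty parts of `U`, each of which has (inside `U`) at most one
neighbour outside of itself and of `W`, are at most `2|W| + 2s` many. -/
def QQ {V : Type} (H : SimpleGraph V) (s : ℕ) (U : Set V) : Prop :=
  ∀ (W : Finset V) (ι : Type) [Fintype ι] (I : ι → Set V),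
    (∀ i, (I i).Nonempty) → (∀ i, I i ⊆ U) →
    (∀ i j x, x ∈ I i → x ∈ I j → i = j) →
    (∀ i, ∃ u : V, ∀ x ∈ I i, ∀ y ∈ U, H.Adj x y → y ∈ I i ∨ y ∈ W ∨ y = u) →
    Fintype.card ι ≤ 2 * W.card + 2 * s

theorem QQ.mono {V : Type} {H : SimpleGraph V} {s t : ℕ} {U : Set V} (h : QQ H s U)
    (hst : s ≤ t) : QQ H t U := by
  intro W ι _ I h1 h2 h3 h4
  have := h W ι I h1 h2 h3 h4
  omega

/-- Vertex sequences of paths have property `Q` with `s = 1`. -/
theorem QQ_path {V : Type} (H : SimpleGraph V) (v : ℕ → V) (n : ℕ)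
    (hinj : ∀ i j, i ≤ n → j ≤ n → v i = v j → i = j)
    (hadj : ∀ i, i < n → H.Adj (v i) (v (i + 1))) :
    QQ H 1 {x | ∃ i, i ≤ n ∧ v i = x} := by
  classical
  intro W ι _ I h1 h2 h3 h4
  have hne : ∀ i, ∃ j, j ≤ n ∧ v j ∈ I i := by
    intro i
    obtain ⟨x, hx⟩ := h1 i
    obtain ⟨j, hj, hjx⟩ := h2 i hx
    exact ⟨j, hj, hjx ▸ hx⟩
  let J : ι → Finset ℕ := fun i => (Finset.range (n + 1)).filter (fun j => v j ∈ I i)
  have hJ : ∀ i, (J i).Nonempty := by
    intro i
    obtain ⟨j, hj, hji⟩ := hne i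
    exact ⟨j, Finset.mem_filter.mpr ⟨Finset.mem_range.mpr (by omega), hji⟩⟩
  let a : ι → ℕ := fun i => (J i).min' (hJ i)
  let b : ι → ℕ := fun i => (J i).max' (hJ i)
  have ha : ∀ i, a i ≤ n ∧ v (a i) ∈ I i := by
    intro i
    have := Finset.mem_filter.mp ((J i).min'_mem (hJ i))
    exact ⟨Nat.lt_succ_iff.mp (Finset.mem_range.mp this.1), this.2⟩
  have hb : ∀ i, b i ≤ n ∧ v (b i) ∈ I i := by
    intro i
    have := Finset.mem_filter.mp ((J i).max'_mem (hJ i))
    exact ⟨Nat.lt_succ_iff.mp (Finset.mem_range.mp this.1), this.2⟩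
  have hamin : ∀ i j, j ≤ n → v j ∈ I i → a i ≤ j := by
    intro i j hj hji
    exact (J i).min'_le j (Finset.mem_filter.mpr ⟨Finset.mem_range.mpr (by omega), hji⟩)
  have hbmax : ∀ i j, j ≤ n → v j ∈ I i → j ≤ b i := by
    intro i j hj hji
    exact (J i).le_max' j (Finset.mem_filter.mpr ⟨Finset.mem_range.mpr (by omega), hji⟩)
  have hab : ∀ i, a i ≤ b i := fun i => hamin i _ (hb i).1 (hb i).2
  have key : ∀ i, ∃ q : Bool × Option V, (q.2 = none ∨ ∃ w ∈ W, q.2 = some w) ∧
      ((q = (false, none) ∧ a i = 0) ∨ (q = (true, none) ∧ b i = n) ∨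
       (∃ w, q = (false, some w) ∧ 1 ≤ a i ∧ v (a i - 1) = w) ∨
       (∃ w, q = (true, some w) ∧ b i + 1 ≤ n ∧ v (b i + 1) = w)) := by
    intro i
    obtain ⟨u, hu⟩ := h4 i
    by_cases h0 : a i = 0
    · exact ⟨(false, none), Or.inl rfl, Or.inl ⟨rfl, h0⟩⟩
    by_cases hn : b i = n
    · exact ⟨(true, none), Or.inl rfl, Or.inr (Or.inl ⟨rfl, hn⟩)⟩
    have h1a : 1 ≤ a i := by omega
    have hbn : b i + 1 ≤ n := by have := (hb i).1; omega
    by_cases hwa : v (a i - 1) ∈ W
    · exact ⟨(false, some (v (a i - 1))), Or.inr ⟨_, hwa, rfl⟩,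
        Or.inr (Or.inr (Or.inl ⟨_, rfl, h1a, rfl⟩))⟩
    by_cases hwb : v (b i + 1) ∈ W
    · exact ⟨(true, some (v (b i + 1))), Or.inr ⟨_, hwb, rfl⟩,
        Or.inr (Or.inr (Or.inr ⟨_, rfl, hbn, rfl⟩))⟩
    exfalso
    have e1 : v (a i - 1) = u := by
      have hadj1 : H.Adj (v (a i)) (v (a i - 1)) := by
        have := hadj (a i - 1) (by have := (ha i).1; omega)
        rw [Nat.sub_add_cancel h1a] at this
        exact this.symm
      rcases hu _ (ha i).2 _ ⟨a i - 1, by have := (ha i).1; omega, rfl⟩ hadj1 with h | h | h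
      · have := hamin i _ (by have := (ha i).1; omega) h
        omega
      · exact absurd h hwa
      · exact h
    have e2 : v (b i + 1) = u := by
      have hadj1 : H.Adj (v (b i)) (v (b i + 1)) := hadj (b i) (by omega)
      rcases hu _ (hb i).2 _ ⟨b i + 1, hbn, rfl⟩ hadj1 with h | h | h
      · have := hbmax i _ hbn h
        omega
      · exact absurd h hwb
      · exact h
    have := hinj (a i - 1) (b i + 1) (by have := (ha i).1; omega) hbn (e1.trans e2.symm)
    have := hab i
    omega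
  choose q hq1 hq2 using key
  have hqinj : Function.Injective q := by
    intro i j hij
    have ha' : a i = a j → i = j := by
      intro h
      have h5 := (ha i).2
      rw [h] at h5
      exact h3 i j _ h5 (ha j).2
    have hb' : b i = b j → i = j := by
      intro h
      have h5 := (hb i).2
      rw [h] at h5
      exact h3 i j _ h5 (hb j).2
    rcases hq2 i with ⟨e, h⟩ | ⟨e, h⟩ | ⟨w, e, h, h'⟩ | ⟨w, e, h, h'⟩ <;>
    rcases hq2 j with ⟨f, k⟩ | ⟨f, k⟩ | ⟨w', f, k, k'⟩ | ⟨w', f, k, k'⟩ <;>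
    rw [hij, f] at e <;> simp at e
    · exact ha' (h.trans k.symm)
    · exact hb' (h.trans k.symm)
    · subst e
      have := hinj _ _ (by have := (ha i).1; omega) (by have := (ha j).1; omega)
        (h'.trans k'.symm)
      exact ha' (by omega)
    · subst e
      have := hinj _ _ h k (h'.trans k'.symm)
      exact hb' (by omega)
  have hcard : Fintype.card ι ≤ ((Finset.univ : Finset Bool) ×ˢ
      (insert none (W.image some) : Finset (Option V))).card := by
    rw [← Finset.card_univ, ← Finset.card_image_of_injective Finset.univ hqinj]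
    refine Finset.card_le_card ?_
    intro y hy
    obtain ⟨i, _, rfl⟩ := Finset.mem_image.mp hy
    refine Finset.mem_product.mpr ⟨Finset.mem_univ _, ?_⟩
    rcases hq1 i with h | ⟨w, hw, h⟩
    · rw [h]; exact Finset.mem_insert_self _ _
    · rw [h]; exact Finset.mem_insert_of_mem (Finset.mem_image_of_mem _ hw)
  have h5 : (insert none (W.image some) : Finset (Option V)).card ≤ W.card + 1 :=
    (Finset.card_insert_le _ _).trans (Nat.add_le_add_right Finset.card_image_le 1)
  rw [Finset.card_product] at hcard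
  have h6 : (Finset.univ : Finset Bool).card = 2 := rfl
  rw [h6] at hcard
  nlinarith [hcard, h5]

theorem exists_img {α β : Type} (W : Finset α) (f : α → β) :
    ∃ W' : Finset β, W'.card ≤ W.card ∧ ∀ a ∈ W, f a ∈ W' := by
  classical
  exact ⟨W.image f, Finset.card_image_le, fun a ha => Finset.mem_image_of_mem _ ha⟩

theorem exists_img_insert {α β : Type} (W : Finset α) (f : α → β) (b : β) :
    ∃ W' : Finset β, W'.card ≤ W.card + 1 ∧ b ∈ W' ∧ ∀ a ∈ W, f a ∈ W' := by
  classical
  exact ⟨insert b (W.image f),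
    (Finset.card_insert_le _ _).trans (Nat.add_le_add_right Finset.card_image_le 1),
    Finset.mem_insert_self _ _,
    fun a ha => Finset.mem_insert_of_mem (Finset.mem_image_of_mem _ ha)⟩

end Pool.Agent.H43.Cyc
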