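import Pool.Agent.H43.Cyc.Cube

/-!
# Trees over a graph, with leaves attached by positions

`H` is a graph on `V` with a homomorphism `p` to a graph `P` on `α`.  `TG H P p d` is the graph
on the tree of depth `d` over `V`: every group of siblings carries a copy of `H`, and the leaves
are pairs of a branch and a point `v` of `P`, joined to those nodes of the branch whose position
is a neighbour of `v` in `P`.
-/

namespace Pool.Agent.H43.Cyc

/-- The vertices of the tree graph. -/
def Tr (V α : Type) : ℕ → Type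
  | 0 => α
  | d + 1 => V × Option (Tr V α d)

theorem finite_Tr {V α : Type} [Finite V] [Finite α] : (d : ℕ) → Finite (Tr V α d)
  | 0 => inferInstanceAs (Finite α)
  | d + 1 => by
      have := finite_Tr (V := V) (α := α) d
      exact inferInstanceAs (Finite (V × Option (Tr V α d)))

/-- Leaves of the tree. -/
def isLeaf {V α : Type} : (d : ℕ) → Tr V α d → Prop
  | 0, _ => True
  | _ + 1, (_, none) => False
  | d + 1, (_, some x) => isLeaf d x

/-- The position of a vertex. -/
def pos {V α : Type} (p : V → α) : (d : ℕ) → Tr V α d → α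
  | 0, v => v
  | _ + 1, (a, none) => p a
  | d + 1, (_, some x) => pos p d x

/-- The tree graph. -/
def TG {V α : Type} (H : SimpleGraph V) (P : SimpleGraph α) (p : V → α) :
    (d : ℕ) → SimpleGraph (Tr V α d)
  | 0 => ⊥
  | d + 1 =>
    { Adj := fun u w => match u, w with
        | (a, none), (b, none) => H.Adj a b
        | (a, none), (b, some y) => a = b ∧ isLeaf d y ∧ P.Adj (p a) (pos p d y)
        | (a, some x), (b, none) => a = b ∧ isLeaf d x ∧ P.Adj (p b) (pos p d x)
        | (a, some x), (b, some y) => a = b ∧ (TG H P p d).Adj x y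
      symm := by
        constructor
        rintro ⟨a, _ | x⟩ ⟨b, _ | y⟩ h
        · exact SimpleGraph.Adj.symm (G := H) h
        · exact ⟨h.1.symm, h.2⟩
        · exact ⟨h.1.symm, h.2⟩
        · exact ⟨h.1.symm, SimpleGraph.Adj.symm (G := TG H P p d) h.2⟩
      loopless := by
        constructor
        rintro ⟨a, _ | x⟩ h
        · exact H.loopless.irrefl a h
        · exact (TG H P p d).loopless.irrefl x h.2 }

section adj
variable {V α : Type} {H : SimpleGraph V} {P : SimpleGraph α} {p : V → α} {d : ℕ}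

theorem adj_nn {a b : V} :
    (TG H P p (d + 1)).Adj ((a, none) : V × Option (Tr V α d))
      ((b, none) : V × Option (Tr V α d)) ↔ H.Adj a b := Iff.rfl

theorem adj_ns {a b : V} {y : Tr V α d} :
    (TG H P p (d + 1)).Adj ((a, none) : V × Option (Tr V α d))
      ((b, some y) : V × Option (Tr V α d)) ↔
      a = b ∧ isLeaf d y ∧ P.Adj (p a) (pos p d y) := Iff.rfl

theorem adj_sn {a b : V} {x : Tr V α d} :
    (TG H P p (d + 1)).Adj ((a, some x) : V × Option (Tr V α d))
      ((b, none) : V × Option (Tr V α d)) ↔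
      a = b ∧ isLeaf d x ∧ P.Adj (p b) (pos p d x) := Iff.rfl

theorem adj_ss {a b : V} {x y : Tr V α d} :
    (TG H P p (d + 1)).Adj ((a, some x) : V × Option (Tr V α d))
      ((b, some y) : V × Option (Tr V α d)) ↔
      a = b ∧ (TG H P p d).Adj x y := Iff.rfl

theorem leaf_n {a : V} : ¬ isLeaf (d + 1) ((a, none) : V × Option (Tr V α d)) := id

theorem leaf_s {a : V} {x : Tr V α d} :
    isLeaf (d + 1) ((a, some x) : V × Option (Tr V α d)) ↔ isLeaf d x := Iff.rfl

end adj

theorem TG_hom {V α : Type} {H : SimpleGraph V} {P : SimpleGraph α} {p : V → α}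
    (hp : ∀ a b, H.Adj a b → P.Adj (p a) (p b)) (d : ℕ) :
    ∀ x y, (TG H P p d).Adj x y → P.Adj (pos p d x) (pos p d y) := by
  induction d with
  | zero => intro x y h; exact h.elim
  | succ d ih =>
    rintro ⟨a, _ | x⟩ ⟨b, _ | y⟩ h
    · exact hp a b h
    · exact h.2.2
    · exact h.2.2.symm
    · exact ih x y h.2

section transfer
variable {V α : Type} {H : SimpleGraph V} {P : SimpleGraph α} {p : V → α} {d s : ℕ}

/-- The top group of a set of nodes. -/
def topS (U : Set (Tr V α (d + 1))) : Set V := {a | ((a, none) : V × Option (Tr V α d)) ∈ U}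

/-- The part of a set of nodes below `a`. -/
def subS (U : Set (Tr V α (d + 1))) (a : V) : Set (Tr V α d) :=
  {x | ((a, some x) : V × Option (Tr V α d)) ∈ U}

/-- The relevant elements of the top group: those with a leaf of `U` below. -/
def relS (U : Set (Tr V α (d + 1))) : Set V := {a | ∃ x ∈ subS U a, isLeaf d x}

theorem QQ_top {U : Set (Tr V α (d + 1))} (h : QQ (TG H P p (d + 1)) s U) :
    QQ H s (topS U) := by
  classical
  intro W ι _ I h1 h2 h3 h4
  obtain ⟨W', hW', hmem⟩ : ∃ W' : Finset (Tr V α (d + 1)), W'.card ≤ W.card ∧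
      ∀ a ∈ W, ((a, none) : V × Option (Tr V α d)) ∈ W' :=
    exists_img W (fun a => ((a, none) : V × Option (Tr V α d)))
  have := h W' ι
    (fun i => {q | q ∈ U ∧ (q : V × Option (Tr V α d)).1 ∈ I i})
    (by
      intro i
      obtain ⟨a, ha⟩ := h1 i
      exact ⟨((a, none) : V × Option (Tr V α d)), h2 i ha, ha⟩)
    (fun i q hq => hq.1)
    (fun i j q hi hj => h3 i j _ hi.2 hj.2)
    (by
      intro i
      obtain ⟨u, hu⟩ := h4 i
      refine ⟨((u, none) : V × Option (Tr V α d)), ?_⟩
      rintro ⟨a, _ | x⟩ ⟨hpU, hpI⟩ ⟨b, _ | y⟩ hq hpq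
      · rcases hu a hpI b hq hpq with h | h | h
        · exact Or.inl ⟨hq, h⟩
        · exact Or.inr (Or.inl (hmem _ h))
        · exact Or.inr (Or.inr (by rw [h]))
      · obtain ⟨rfl, _⟩ := hpq
        exact Or.inl ⟨hq, hpI⟩
      · obtain ⟨rfl, _⟩ := hpq
        exact Or.inl ⟨hq, hpI⟩
      · obtain ⟨rfl, _⟩ := hpq
        exact Or.inl ⟨hq, hpI⟩)
  omega

theorem QQ_sub {U : Set (Tr V α (d + 1))} (h : QQ (TG H P p (d + 1)) s U) (a : V) :
    QQ (TG H P p d) (s + 1) (subS U a) := by
  classical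
  intro W ι _ I h1 h2 h3 h4
  obtain ⟨W', hW', hmem0, hmem⟩ : ∃ W' : Finset (Tr V α (d + 1)), W'.card ≤ W.card + 1 ∧
      ((a, none) : V × Option (Tr V α d)) ∈ W' ∧
      ∀ x ∈ W, ((a, some x) : V × Option (Tr V α d)) ∈ W' :=
    exists_img_insert W (fun x => ((a, some x) : V × Option (Tr V α d)))
      ((a, none) : V × Option (Tr V α d))
  have := h W' ι
    (fun i => {q | ∃ x ∈ I i, q = ((a, some x) : V × Option (Tr V α d))})
    (by
      intro i
      obtain ⟨x, hx⟩ := h1 i
      exact ⟨_, x, hx, rfl⟩)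
    (by
      rintro i q ⟨x, hx, rfl⟩
      exact h2 i hx)
    (by
      rintro i j q ⟨x, hx, rfl⟩ ⟨y, hy, hxy⟩
      have : x = y := by
        have := congrArg (Prod.snd : V × Option (Tr V α d) → Option (Tr V α d)) hxy
        exact Option.some.inj this
      subst this
      exact h3 i j x hx hy)
    (by
      intro i
      obtain ⟨u, hu⟩ := h4 i
      refine ⟨((a, some u) : V × Option (Tr V α d)), ?_⟩
      rintro q ⟨x, hx, rfl⟩ ⟨b, _ | y⟩ hq hpq
      · obtain ⟨rfl, _⟩ := hpq
        exact Or.inr (Or.inl hmem0)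
      · obtain ⟨rfl, hxy⟩ := hpq
        rcases hu x hx y hq hxy with h | h | h
        · exact Or.inl ⟨y, h, rfl⟩
        · exact Or.inr (Or.inl (hmem _ h))
        · exact Or.inr (Or.inr (by rw [h])))
  omega

theorem card_rel {U : Set (Tr V α (d + 1))} (h : QQ (TG H P p (d + 1)) s U)
    (R : Finset V) (hR : ∀ a ∈ R, a ∈ relS U) : R.card ≤ 2 * s := by
  classical
  have := h ∅ R (fun i => {q | q ∈ U ∧ (q : V × Option (Tr V α d)).1 = i ∧
      (q : V × Option (Tr V α d)).2 ≠ none})
    (by
      intro i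
      obtain ⟨x, hx, _⟩ := hR i i.2
      exact ⟨((i.1, some x) : V × Option (Tr V α d)), hx, rfl, by simp⟩)
    (fun i q hq => hq.1)
    (by
      intro i j q hi hj
      exact Subtype.ext (hi.2.1.symm.trans hj.2.1))
    (by
      intro i
      refine ⟨((i.1, none) : V × Option (Tr V α d)), ?_⟩
      rintro ⟨a, _ | x⟩ ⟨hpU, hpI, hpn⟩ ⟨b, _ | y⟩ hq hpq
      · exact absurd rfl hpn
      · exact absurd rfl hpn
      · obtain ⟨rfl, _⟩ := hpq
        right; right
        have : a = i.1 := hpI
        rw [this]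
      · obtain ⟨rfl, _⟩ := hpq
        left
        exact ⟨hq, hpI, by simp⟩)
  simpa using this

end transfer

/-- The colouring property passes to trees. -/
theorem LF_tree {V α : Type} {H : SimpleGraph V} {P : SimpleGraph α} {p : V → α} {s' r K : ℕ}
    (hLF : LF H s' (2 * s' + r) (K + 3)) (hLB : LocBip H (2 * s' + r) (K + 3 + 5)) :
    ∀ (d s : ℕ), s + d ≤ s' → ∀ U : Set (Tr V α d), QQ (TG H P p d) s U →
    ∀ (δ : Tr V α d → ℕ) (h : Tr V α d → ℤ),
    (∀ x ∈ U, ∀ y ∈ U, (TG H P p d).Adj x y → δ y ≤ δ x + 1) →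
    (∀ F : Finset (Tr V α d), (∀ x ∈ F, x ∈ U ∧ δ x = 0) → F.card ≤ r) →
    (∀ x ∈ U, -(K : ℤ) ≤ h x ∧ h x ≤ K) →
    (∀ x ∈ U, ∀ y ∈ U, (TG H P p d).Adj x y → δ x < K + 5 → δ y < K + 5 →
      h x = h y + 1 ∨ h y = h x + 1) →
    ∃ c : Tr V α d → ℤ, (∀ x ∈ U, 0 ≤ c x ∧ c x ≤ 3) ∧
      (∀ x ∈ U, ∀ y ∈ U, (TG H P p d).Adj x y → c x ≠ c y) ∧
      (∀ x ∈ U, δ x = 0 → c x = h x % 3) ∧
      (∀ x ∈ U, isLeaf d x → δ x ≠ 0 → c x = 3) := by
  classical
  intro d
  induction d with
  | zero =>
    intro s _ U _ δ h _ _ _ _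
    refine ⟨fun x => if δ x = 0 then h x % 3 else 3, ?_, ?_, ?_, ?_⟩
    · intro x _
      dsimp only
      split_ifs <;> omega
    · intro x _ y _ hxy
      exact hxy.elim
    · intro x _ hx
      simp [hx]
    · intro x _ _ hx
      simp [hx]
  | succ d ih =>
    intro s hs U hU δ h hLip hcnt hbd hht
    -- the top group
    let nd : V → Tr V α (d + 1) := fun a => ((a, none) : V × Option (Tr V α d))
    let sb : V → Tr V α d → Tr V α (d + 1) := fun a x => ((a, some x) : V × Option (Tr V α d))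
    let R : Set V := {a | nd a ∈ U ∧ (a ∈ relS U ∨ δ (nd a) = 0)}
    have hnd_inj : Function.Injective nd := by
      intro a b hab
      exact congrArg (Prod.fst : V × Option (Tr V α d) → V) hab
    have hsb_inj : ∀ a, Function.Injective (sb a) := by
      intro a x y hxy
      exact Option.some.inj
        (congrArg (Prod.snd : V × Option (Tr V α d) → Option (Tr V α d)) hxy)
    have hRc : ∀ F : Finset V, (∀ a ∈ F, a ∈ R) → F.card ≤ 2 * s' + r := by
      intro F hF
      have h1 := Finset.card_filter_add_card_filter_not (s := F) (fun a => a ∈ relS U)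
      have h2 : (F.filter (fun a => a ∈ relS U)).card ≤ 2 * s :=
        card_rel hU _ (fun a ha => (Finset.mem_filter.mp ha).2)
      have h3 : (F.filter (fun a => ¬ a ∈ relS U)).card ≤ r := by
        rw [← Finset.card_image_of_injective _ hnd_inj]
        refine hcnt _ ?_
        intro x hx
        obtain ⟨a, ha, rfl⟩ := Finset.mem_image.mp hx
        obtain ⟨ha1, ha2⟩ := Finset.mem_filter.mp ha
        have := hF a ha1
        exact ⟨this.1, this.2.resolve_left ha2⟩
      omega
    obtain ⟨π, hπ⟩ := hLB R hRc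
    let pz : V → ℤ := fun a => if π a = true then 1 else 0
    have hpz : ∀ a, pz a = 0 ∨ pz a = 1 := by
      intro a
      simp only [pz]
      split_ifs <;> simp
    let ht : V → ℤ := fun a => HT K (h (nd a)) (pz a) (δ (nd a))
    obtain ⟨c0, hc0a, hc0b, hc0c⟩ := hLF (topS U) ((QQ_top hU).mono (by omega))
      (cdist H R (K + 3 + 5)) ht
      (fun x _ y _ hxy => cdist_adj H R _ hxy)
      (by
        intro F hF
        refine hRc F ?_
        intro a ha
        exact (cdist_eq_zero H R (by omega)).mp (hF a ha).2)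
      (by
        intro a ha
        exact HT_bd K (hpz a) (hbd _ ha).1 (hbd _ ha).2)
      (by
        intro a ha b hb hab h1 h2
        have hne := hπ a (cdist_lt H R h1) b (cdist_lt H R h2) hab
        refine HT_adj K ?_ (hLip _ hb _ ha (adj_nn.mpr hab.symm))
          (hLip _ ha _ hb (adj_nn.mpr hab)) (hht _ ha _ hb (adj_nn.mpr hab))
        simp only [pz]
        cases hπa : π a <;> cases hπb : π b <;> simp_all)
    -- the parts below
    have hsub : ∀ a : V, ∃ c : Tr V α d → ℤ, (∀ x ∈ subS U a, 0 ≤ c x ∧ c x ≤ 3) ∧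
        (∀ x ∈ subS U a, ∀ y ∈ subS U a, (TG H P p d).Adj x y → c x ≠ c y) ∧
        (∀ x ∈ subS U a, δ (sb a x) = 0 → c x = h (sb a x) % 3) ∧
        (∀ x ∈ subS U a, isLeaf d x → δ (sb a x) ≠ 0 → c x = 3) := by
      intro a
      refine ih (s + 1) (by omega) (subS U a) (QQ_sub hU a) (fun x => δ (sb a x))
        (fun x => h (sb a x)) ?_ ?_ ?_ ?_
      · intro x hx y hy hxy
        exact hLip _ hx _ hy (adj_ss.mpr ⟨rfl, hxy⟩)
      · intro F hF
        rw [← Finset.card_image_of_injective _ (hsb_inj a)]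
        refine hcnt _ ?_
        intro z hz
        obtain ⟨x, hx, rfl⟩ := Finset.mem_image.mp hz
        exact hF x hx
      · intro x hx
        exact hbd _ hx
      · intro x hx y hy hxy
        exact hht _ hx _ hy (adj_ss.mpr ⟨rfl, hxy⟩)
    choose cs hcsa hcsb hcsc hcsd using hsub
    -- leaves against nodes
    have hcross : ∀ (a : V) (y : Tr V α d), nd a ∈ U → sb a y ∈ U → isLeaf d y →
        (TG H P p (d + 1)).Adj (nd a) (sb a y) → c0 a ≠ cs a y := by
      intro a y ha hy hl hadj
      have haR : a ∈ R := ⟨ha, Or.inl ⟨y, hy, hl⟩⟩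
      have h1 : c0 a = ht a % 3 := hc0c a ha ((cdist_eq_zero H R (by omega)).mpr haR)
      by_cases h0 : δ (sb a y) = 0
      · have h2 : cs a y = h (sb a y) % 3 := hcsc a y hy h0
        have h3 : δ (nd a) ≤ 1 := by
          have := hLip _ hy _ ha hadj.symm
          omega
        have h4 : ht a % 3 = h (nd a) % 3 := HT_mod K (hpz a) (hbd _ ha).1 (hbd _ ha).2 h3
        have h5 := hht _ ha _ hy hadj (by omega) (by omega)
        rw [h1, h2, h4]
        omega
      · have h2 : cs a y = 3 := hcsd a y hy hl h0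
        rw [h1, h2]
        omega
    refine ⟨fun z => match (z : V × Option (Tr V α d)) with
      | (a, none) => c0 a
      | (a, some x) => cs a x, ?_, ?_, ?_, ?_⟩
    · rintro ⟨a, _ | x⟩ hz
      · exact hc0a a hz
      · exact hcsa a x hz
    · rintro ⟨a, _ | x⟩ hz ⟨b, _ | y⟩ hw hzw
      · exact hc0b a hz b hw hzw
      · obtain ⟨rfl, hl, hp⟩ := hzw
        exact hcross a y hz hw hl (adj_ns.mpr ⟨rfl, hl, hp⟩)
      · obtain ⟨rfl, hl, hp⟩ := hzw
        exact (hcross a x hw hz hl (adj_ns.mpr ⟨rfl, hl, hp⟩)).symm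
      · obtain ⟨rfl, hxy⟩ := hzw
        exact hcsb a x hz y hw hxy
    · rintro ⟨a, _ | x⟩ hz h0
      · have haR : a ∈ R := ⟨hz, Or.inr h0⟩
        have h1 : c0 a = ht a % 3 := hc0c a hz ((cdist_eq_zero H R (by omega)).mpr haR)
        have h4 : ht a % 3 = h (nd a) % 3 :=
          HT_mod K (hpz a) (hbd _ hz).1 (hbd _ hz).2 (by
            have : δ (nd a) = 0 := h0
            omega)
        exact h1.trans h4
      · exact hcsc a x hz h0
    · rintro ⟨a, _ | x⟩ hz hl h0
      · exact (leaf_n hl).elim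
      · exact hcsd a x hz hl h0

end Pool.Agent.H43.Cyc
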